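import Pool.Agent.Work.MP_db9399_all.Interface

/-!
# MP_db9399, all scales: the closed family of clusters (helper38)

`G` is `d`-regular. Every bounded near-closed set of vertices is a union of clusters up to a few
vertices.
-/

set_option autoImplicit false

namespace Pool.Agent.Work.MP_db9399_xc.helper38

open Finset Classical
open Pool.Agent.Work.MP_db9399_all (nb)

universe u

section defs
variable {V : Type u} [Fintype V]

/-- number of leaving edges -/
noncomputable def bdr (G : SimpleGraph V) (Q : Finset V) : ℝ := ∑ v ∈ Q, ((nb G v \ Q).card : ℝ)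

/-- the light members of the clusters -/
noncomputable def lgt (G : SimpleGraph V) (d : ℕ) (a : ℝ) (Cs : Finset (Finset V)) : Finset V :=
  univ.filter fun v => ∃ Q ∈ Cs, v ∈ Q ∧ ((nb G v \ Q).card : ℝ) ≤ 2 * a * d

/-- A closed family of clusters. `ζ`: absorption threshold (a constant), `a`: threshold of the light
members, `g`: scale of the near-closed sets. -/
structure Clx (G : SimpleGraph V) (d : ℕ) (M ζ a g : ℝ) (Cs : Finset (Finset V)) : Prop where
  dis : ∀ Q ∈ Cs, ∀ Q' ∈ Cs, Q ≠ Q' → Disjoint Q Q'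
  lo : ∀ Q ∈ Cs, (1 - 2 * ζ) * d ≤ (Q.card : ℝ)
  hi : ∀ Q ∈ Cs, (Q.card : ℝ) ≤ 4 * M * d
  inn : ∀ Q ∈ Cs, ∀ v ∈ Q, ((nb G v \ Q).card : ℝ) ≤ 2 * ζ * d
  nin : ∀ Q ∈ Cs, ∀ v, v ∉ Q → ζ / 2 * d ≤ ((nb G v \ Q).card : ℝ)
  hv : ∀ Q ∈ Cs, ((Q.filter fun v => 2 * a * d < ((nb G v \ Q).card : ℝ)).card : ℝ) ≤ 2 * a ^ 2 * d
  bd : ∀ Q ∈ Cs, bdr G Q ≤ a ^ 2 * (d : ℝ) ^ 2
  ex : ∀ T U : Finset V, (T.card : ℝ) ≤ M * d → (U.card : ℝ) ≤ (1 + g) * T.card →
    ∑ v ∈ T, ((nb G v \ U).card : ℝ) ≤ g * d * T.card →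
    (((T ∪ U) \ lgt G d a (Cs.filter fun Q => ((Q \ (T ∪ U)).card : ℝ) ≤ 4 * a ^ 3 * d)).card : ℝ)
      ≤ 50 * M * a ^ 2 * d
  al : ∀ T U : Finset V, (T.card : ℝ) ≤ M * d → (U.card : ℝ) ≤ (1 + g) * T.card →
    ∑ v ∈ T, ((nb G v \ U).card : ℝ) ≤ g * d * T.card → ∀ Q ∈ Cs,
    ((Q ∩ (T ∪ U)).card : ℝ) ≤ 4 * a ^ 3 * d ∨ ((Q \ (T ∪ U)).card : ℝ) ≤ 4 * a ^ 3 * d

end defs

/-- **The closed family exists.** -/
def Stmt_ATOMS : Prop :=
  ∀ M : ℝ, 1 ≤ M → ∃ c0 : ℝ, 0 < c0 ∧ c0 ≤ 1 ∧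
    ∀ {V : Type u} [Fintype V] (G : SimpleGraph V) (d : ℕ) (ζ a : ℝ), 1 ≤ d →
      (∀ v, (nb G v).card = d) → 0 < a → 3 * a ≤ ζ → ζ ≤ 1 / 8 →
      ∃ Cs : Finset (Finset V), Clx G d M ζ a (c0 * a ^ 3) Cs

variable {V : Type u} [Fintype V]

theorem mem_nb {G : SimpleGraph V} {v w : V} : w ∈ nb G v ↔ G.Adj v w := by simp [nb]

theorem cnt_comm (G : SimpleGraph V) (A B : Finset V) :
    ∑ v ∈ A, ((nb G v ∩ B).card : ℝ) = ∑ w ∈ B, ((nb G w ∩ A).card : ℝ) := by
  have h : ∀ (A B : Finset V), ∑ v ∈ A, ((nb G v ∩ B).card : ℝ) =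
      ∑ v ∈ A, ∑ w ∈ B, (if G.Adj v w then (1 : ℝ) else 0) := by
    intro A B
    refine sum_congr rfl fun v _ => ?_
    rw [← sum_filter, sum_const, nsmul_eq_mul, mul_one]
    congr 2
    ext w
    simp [mem_nb, and_comm]
  rw [h, h, sum_comm]
  refine sum_congr rfl fun w _ => sum_congr rfl fun v _ => ?_
  simp [G.adj_comm]

omit [Fintype V] in
theorem card_split (A B : Finset V) : ((A ∩ B).card : ℝ) + ((A \ B).card : ℝ) = A.card := by
  exact_mod_cast card_inter_add_card_sdiff A B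

omit [Fintype V] in
theorem card_mono' {A B : Finset V} (h : A ⊆ B) : (A.card : ℝ) ≤ B.card := by
  exact_mod_cast card_le_card h

theorem bdr_nonneg (G : SimpleGraph V) (A : Finset V) : 0 ≤ bdr G A :=
  sum_nonneg fun _ _ => Nat.cast_nonneg _

theorem bdr_inter (G : SimpleGraph V) (A B : Finset V) : bdr G (A ∩ B) ≤ bdr G A + bdr G B := by
  unfold bdr
  calc ∑ v ∈ A ∩ B, ((nb G v \ (A ∩ B)).card : ℝ)
      ≤ ∑ v ∈ A ∩ B, (((nb G v \ A).card : ℝ) + ((nb G v \ B).card : ℝ)) := by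
        refine sum_le_sum fun v _ => ?_
        have : nb G v \ (A ∩ B) = (nb G v \ A) ∪ (nb G v \ B) := by
          ext x; simp only [mem_sdiff, mem_inter, mem_union]; tauto
        rw [this]
        exact_mod_cast card_union_le _ _
    _ = ∑ v ∈ A ∩ B, ((nb G v \ A).card : ℝ) + ∑ v ∈ A ∩ B, ((nb G v \ B).card : ℝ) :=
        sum_add_distrib
    _ ≤ _ := add_le_add
        (sum_le_sum_of_subset_of_nonneg inter_subset_left fun _ _ _ => Nat.cast_nonneg _)
        (sum_le_sum_of_subset_of_nonneg inter_subset_right fun _ _ _ => Nat.cast_nonneg _)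

theorem bdr_sdiff (G : SimpleGraph V) (A B : Finset V) : bdr G (A \ B) ≤ bdr G A + bdr G B := by
  have h1 : bdr G (A \ B) ≤ ∑ v ∈ A \ B, ((nb G v \ A).card : ℝ) +
      ∑ v ∈ A \ B, ((nb G v ∩ B).card : ℝ) := by
    rw [← sum_add_distrib]
    unfold bdr
    refine sum_le_sum fun v _ => ?_
    have : nb G v \ (A \ B) ⊆ (nb G v \ A) ∪ (nb G v ∩ B) := by
      intro x; simp only [mem_sdiff, mem_inter, mem_union]; tauto
    have h := card_le_card this
    have h' := card_union_le (nb G v \ A) (nb G v ∩ B)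
    exact_mod_cast h.trans h'
  have h2 : ∑ v ∈ A \ B, ((nb G v \ A).card : ℝ) ≤ bdr G A :=
    sum_le_sum_of_subset_of_nonneg sdiff_subset fun _ _ _ => Nat.cast_nonneg _
  have h3 : ∑ v ∈ A \ B, ((nb G v ∩ B).card : ℝ) ≤ bdr G B := by
    rw [cnt_comm]
    unfold bdr
    refine sum_le_sum fun v _ => card_mono' ?_
    intro x; simp only [mem_sdiff, mem_inter]; tauto
  linarith

theorem bdr_union (G : SimpleGraph V) (A B : Finset V) :
    bdr G (A ∪ B) ≤ ∑ v ∈ A, ((nb G v \ B).card : ℝ) + ∑ v ∈ B, ((nb G v \ A).card : ℝ) := by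
  unfold bdr
  have h1 : ∑ v ∈ A ∪ B, ((nb G v \ (A ∪ B)).card : ℝ) ≤
      ∑ v ∈ A, ((nb G v \ (A ∪ B)).card : ℝ) + ∑ v ∈ B, ((nb G v \ (A ∪ B)).card : ℝ) := by
    have := sum_union_inter (s₁ := A) (s₂ := B) (f := fun v => ((nb G v \ (A ∪ B)).card : ℝ))
    have h' : 0 ≤ ∑ v ∈ A ∩ B, ((nb G v \ (A ∪ B)).card : ℝ) :=
      sum_nonneg fun _ _ => Nat.cast_nonneg _
    linarith
  refine h1.trans (add_le_add (sum_le_sum fun v _ => card_mono' ?_)
    (sum_le_sum fun v _ => card_mono' ?_))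
  · exact sdiff_subset_sdiff (Subset.refl _) subset_union_right
  · exact sdiff_subset_sdiff (Subset.refl _) subset_union_left

/-- small near-closed sets are tiny -/
theorem tiny {G : SimpleGraph V} {d : ℕ} (hd : 1 ≤ d) (hreg : ∀ v, (nb G v).card = d)
    {B : Finset V} {γ : ℝ} (h1 : bdr G B ≤ γ * (d : ℝ) ^ 2) (h2 : (B.card : ℝ) < d / 2) :
    (B.card : ℝ) ≤ 2 * γ * d := by
  have hd0 : (1 : ℝ) ≤ d := by exact_mod_cast hd
  have h3 : ∀ v ∈ B, (d : ℝ) / 2 ≤ ((nb G v \ B).card : ℝ) := by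
    intro v _
    have h := card_split (nb G v) B
    rw [hreg v] at h
    have h' : ((nb G v ∩ B).card : ℝ) ≤ B.card := card_mono' inter_subset_right
    linarith
  have h4 := card_nsmul_le_sum B (fun v => ((nb G v \ B).card : ℝ)) _ h3
  rw [nsmul_eq_mul] at h4
  have h5 : (B.card : ℝ) * (d / 2) ≤ γ * (d : ℝ) ^ 2 := h4.trans h1
  have h6 : (B.card : ℝ) * (d / 2) ≤ (2 * γ * d) * (d / 2) := by linarith [h5, sq (d : ℝ)]
  exact le_of_mul_le_mul_right h6 (by linarith)

/-- atoms -/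
structure Atom (G : SimpleGraph V) (d : ℕ) (m g0 : ℝ) (A : Finset V) (i : ℕ) : Prop where
  lo : (d : ℝ) / 2 ≤ A.card
  hi : (A.card : ℝ) ≤ m * d
  bd : bdr G A ≤ 2 ^ i * g0 * (d : ℝ) ^ 2
  rob : ∀ B ⊆ A, bdr G B ≤ 2 ^ (i + 1) * g0 * (d : ℝ) ^ 2 →
    (B.card : ℝ) < d / 2 ∨ ((A \ B).card : ℝ) < d / 2

theorem split {G : SimpleGraph V} {d : ℕ} {m g0 : ℝ} (hd : 1 ≤ d) (hg : 0 ≤ g0) (n : ℕ) :
    ∀ (A : Finset V) (i : ℕ), 2 * A.card / d = n → (d : ℝ) / 2 ≤ A.card →
      (A.card : ℝ) ≤ m * d → bdr G A ≤ 2 ^ i * g0 * (d : ℝ) ^ 2 →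
      ∃ S : Finset (Finset V × ℕ), S.card ≤ n ∧ (∀ p ∈ S, Atom G d m g0 p.1 p.2 ∧ p.2 ≤ i + 2 * n ∧
        p.1 ⊆ A) ∧ A ⊆ S.biUnion fun p => p.1 := by
  have hd0 : (1 : ℝ) ≤ d := by exact_mod_cast hd
  induction n using Nat.strong_induction_on with
  | _ n ih =>
    intro A i hn hlo hhi hbd
    by_cases hA : Atom G d m g0 A i
    · refine ⟨{(A, i)}, ?_, ?_, ?_⟩
      · rw [card_singleton, ← hn, Nat.one_le_div_iff (by omega)]
        have : (d : ℝ) ≤ ((2 * A.card : ℕ) : ℝ) := by push_cast; linarith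
        exact_mod_cast this
      · intro p hp
        rw [mem_singleton] at hp
        subst hp
        exact ⟨hA, by simp, Subset.refl _⟩
      · simp
    · have : ∃ B ⊆ A, bdr G B ≤ 2 ^ (i + 1) * g0 * (d : ℝ) ^ 2 ∧ (d : ℝ) / 2 ≤ B.card ∧
          (d : ℝ) / 2 ≤ ((A \ B).card : ℝ) := by
        by_contra hcon
        push Not at hcon
        refine hA ⟨hlo, hhi, hbd, fun B hB hb => ?_⟩
        by_contra h
        push Not at h
        exact absurd (hcon B hB hb h.1) (not_lt.2 h.2)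
      obtain ⟨B, hBA, hb, hB1, hB2⟩ := this
      have hcard : A.card = B.card + (A \ B).card := by
        rw [card_sdiff_of_subset hBA]
        have := card_le_card hBA
        omega
      have hsum : 2 * B.card / d + 2 * (A \ B).card / d ≤ n := by
        rw [← hn, hcard, mul_add]
        exact Nat.div_add_div_le_add_div
      have hone : ∀ C : Finset V, (d : ℝ) / 2 ≤ C.card → 1 ≤ 2 * C.card / d := by
        intro C hC
        rw [Nat.one_le_div_iff (by omega)]
        have : (d : ℝ) ≤ ((2 * C.card : ℕ) : ℝ) := by push_cast; linarith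
        exact_mod_cast this
      have h1 := hone B hB1
      have h2 := hone _ hB2
      have hpow : (2 : ℝ) ^ (i + 2) = 4 * 2 ^ i := by ring
      have hpow1 : (2 : ℝ) ^ (i + 1) = 2 * 2 ^ i := by ring
      have hpos : 0 ≤ (2 : ℝ) ^ i * g0 * (d : ℝ) ^ 2 := by positivity
      have hbB : bdr G B ≤ 2 ^ (i + 2) * g0 * (d : ℝ) ^ 2 := by
        rw [hpow]; rw [hpow1] at hb; nlinarith
      have hbC : bdr G (A \ B) ≤ 2 ^ (i + 2) * g0 * (d : ℝ) ^ 2 := by
        have := bdr_sdiff G A B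
        rw [hpow]; rw [hpow1] at hb; nlinarith
      obtain ⟨S1, hS1, hS1', hS1''⟩ := ih (2 * B.card / d) (by omega) B (i + 2) rfl hB1
        ((card_mono' hBA).trans hhi) hbB
      obtain ⟨S2, hS2, hS2', hS2''⟩ := ih (2 * (A \ B).card / d) (by omega) (A \ B) (i + 2) rfl hB2
        ((card_mono' sdiff_subset).trans hhi) hbC
      refine ⟨S1 ∪ S2, (card_union_le _ _).trans (by omega), ?_, ?_⟩
      · intro p hp
        rcases mem_union.1 hp with h | h
        · exact ⟨(hS1' p h).1, by have := (hS1' p h).2.1; omega, (hS1' p h).2.2.trans hBA⟩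
        · exact ⟨(hS2' p h).1, by have := (hS2' p h).2.1; omega,
            (hS2' p h).2.2.trans sdiff_subset⟩
      · intro x hx
        rw [mem_biUnion]
        by_cases hxB : x ∈ B
        · obtain ⟨p, hp, hxp⟩ := mem_biUnion.1 (hS1'' hxB)
          exact ⟨p, mem_union_left _ hp, hxp⟩
        · obtain ⟨p, hp, hxp⟩ := mem_biUnion.1 (hS2'' (mem_sdiff.2 ⟨hx, hxB⟩))
          exact ⟨p, mem_union_right _ hp, hxp⟩

theorem fam (G : SimpleGraph V) (d : ℕ) (m g0 : ℝ) (hd : 1 ≤ d) (i : ℕ) :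
    ∃ F : Finset (Finset V × ℕ), (∀ p ∈ F, Atom G d m g0 p.1 p.2 ∧ p.2 < i) ∧
      (∀ p ∈ F, ∀ q ∈ F, p ≠ q → ((p.1 ∩ q.1).card : ℝ) < d / 2) ∧
      ∀ A j, Atom G d m g0 A j → j < i → ∃ p ∈ F, p.2 ≤ j ∧ (d : ℝ) / 2 ≤ ((A ∩ p.1).card : ℝ) := by
  have hd0 : (1 : ℝ) ≤ d := by exact_mod_cast hd
  induction i with
  | zero => exact ⟨∅, by simp, by simp, by simp⟩
  | succ i ih =>
    obtain ⟨F, hF1, hF2, hF3⟩ := ih
    let Ad : Finset (Finset (Finset V)) := univ.filter fun E => (∀ A ∈ E, Atom G d m g0 A i) ∧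
      (∀ A ∈ E, ∀ B ∈ E, A ≠ B → ((A ∩ B).card : ℝ) < d / 2) ∧
      ∀ A ∈ E, ∀ p ∈ F, ((A ∩ p.1).card : ℝ) < d / 2
    have hne : Ad.Nonempty := ⟨∅, by simp [Ad]⟩
    obtain ⟨E, hE, hmax⟩ := exists_max_image Ad card hne
    have hE' := hE
    simp only [Ad, mem_filter, mem_univ, true_and] at hE'
    obtain ⟨hE1, hE2, hE3⟩ := hE'
    refine ⟨F ∪ E.image (fun A => (A, i)), ?_, ?_, ?_⟩
    · intro p hp
      rcases mem_union.1 hp with h | h
      · exact ⟨(hF1 p h).1, by have := (hF1 p h).2; omega⟩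
      · obtain ⟨A, hA, rfl⟩ := mem_image.1 h
        exact ⟨hE1 A hA, by simp⟩
    · intro p hp q hq hpq
      rcases mem_union.1 hp with h | h
      · rcases mem_union.1 hq with h' | h'
        · exact hF2 p h q h' hpq
        · obtain ⟨A, hA, rfl⟩ := mem_image.1 h'
          have := hE3 A hA p h
          rwa [inter_comm] at this
      · obtain ⟨A, hA, rfl⟩ := mem_image.1 h
        rcases mem_union.1 hq with h' | h'
        · exact hE3 A hA q h'
        · obtain ⟨B, hB, rfl⟩ := mem_image.1 h'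
          refine hE2 A hA B hB ?_
          rintro rfl
          exact hpq rfl
    · intro A j hA hj
      by_cases hji : j < i
      · obtain ⟨p, hp, h1, h2⟩ := hF3 A j hA hji
        exact ⟨p, mem_union_left _ hp, h1, h2⟩
      · have hij : j = i := by omega
        subst hij
        by_cases h1 : ∃ p ∈ F, (d : ℝ) / 2 ≤ ((A ∩ p.1).card : ℝ)
        · obtain ⟨p, hp, h⟩ := h1
          exact ⟨p, mem_union_left _ hp, (hF1 p hp).2.le, h⟩
        · by_cases h2 : ∃ B ∈ E, (d : ℝ) / 2 ≤ ((A ∩ B).card : ℝ)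
          · obtain ⟨B, hB, h⟩ := h2
            exact ⟨(B, j), mem_union_right _ (mem_image_of_mem _ hB), le_refl _, h⟩
          · push Not at h1 h2
            have hAE : A ∉ E := by
              intro hAE
              have := h2 A hAE
              rw [inter_self] at this
              linarith [hA.lo]
            have h3 : insert A E ∈ Ad := by
              simp only [Ad, mem_filter, mem_univ, true_and, mem_insert]
              refine ⟨?_, ?_, ?_⟩
              · rintro B (rfl | hB)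
                · exact hA
                · exact hE1 B hB
              · rintro B (rfl | hB) C (rfl | hC) hBC
                · exact absurd rfl hBC
                · exact h2 C hC
                · have := h2 B hB
                  rwa [inter_comm] at this
                · exact hE2 B hB C hC hBC
              · rintro B (rfl | hB) p hp
                · exact h1 p hp
                · exact hE3 B hB p hp
            have h4 := hmax _ h3
            rw [card_insert_of_notMem hAE] at h4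
            omega

/-- overlap of two near-closed sets, one of them an atom of index `i` -/
theorem overlap {G : SimpleGraph V} {d : ℕ} {m g0 : ℝ} (hd : 1 ≤ d)
    (hreg : ∀ v, (nb G v).card = d) {A : Finset V} {i : ℕ} (hA : Atom G d m g0 A i)
    {B : Finset V} (hB : bdr G B ≤ 2 ^ i * g0 * (d : ℝ) ^ 2) :
    ((A ∩ B).card : ℝ) ≤ 2 * (2 ^ (i + 1) * g0) * d ∨
      ((A \ B).card : ℝ) ≤ 2 * (2 ^ (i + 1) * g0) * d := by
  have hpow1 : (2 : ℝ) ^ (i + 1) = 2 * 2 ^ i := by ring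
  have h1 : bdr G (A ∩ B) ≤ 2 ^ (i + 1) * g0 * (d : ℝ) ^ 2 := by
    have := bdr_inter G A B
    have h := hA.bd
    rw [hpow1]; nlinarith
  have h2 : bdr G (A \ B) ≤ 2 ^ (i + 1) * g0 * (d : ℝ) ^ 2 := by
    have := bdr_sdiff G A B
    have h := hA.bd
    rw [hpow1]; nlinarith
  rcases hA.rob _ inter_subset_left h1 with h | h
  · left
    exact tiny hd hreg h1 h
  · right
    have h3 : A \ (A ∩ B) = A \ B := by ext x; simp
    rw [h3] at h
    exact tiny hd hreg h2 h

theorem stmt_ATOMS : Stmt_ATOMS.{u} := by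
  intro M hM
  set n : ℕ := ⌊6 * M⌋₊ with hn
  set K : ℕ := 2 * n with hK
  have hn6 : (n : ℝ) ≤ 6 * M := Nat.floor_le (by linarith)
  have hpK : (0 : ℝ) < 2 ^ (K + 1) := by positivity
  have hpK1 : (1 : ℝ) ≤ 2 ^ (K + 1) := one_le_pow₀ (by norm_num)
  refine ⟨1 / (3 * M * 2 ^ (K + 1)), by positivity, ?_, ?_⟩
  · rw [div_le_one (by positivity)]
    nlinarith
  intro V _ G d ζ a hd hreg ha haz hz
  have hd0 : (1 : ℝ) ≤ d := by exact_mod_cast hd
  set g0 : ℝ := a ^ 3 / 2 ^ (K + 1) with hg0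
  have hg0p : 0 < g0 := by positivity
  have hγ : 2 ^ (K + 1) * g0 = a ^ 3 := by rw [hg0]; field_simp
  have hle : ∀ i, i ≤ K → (2 : ℝ) ^ (i + 1) * g0 ≤ a ^ 3 := by
    intro i hi
    rw [← hγ]
    exact mul_le_mul_of_nonneg_right (pow_le_pow_right₀ (by norm_num) (by omega)) hg0p.le
  have hle' : ∀ i, i ≤ K → (2 : ℝ) ^ i * g0 ≤ a ^ 3 := by
    intro i hi
    rw [← hγ]
    exact mul_le_mul_of_nonneg_right (pow_le_pow_right₀ (by norm_num) (by omega)) hg0p.le
  have ha24 : a ≤ 1 / 24 := by linarith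
  have ha3 : a ^ 3 ≤ a ^ 2 / 24 := by nlinarith [sq_nonneg a]
  have ha2 : a ^ 2 ≤ a / 24 := by nlinarith
  obtain ⟨F, hF1, hF2, hF3⟩ := fam G d (3 * M) g0 hd (K + 1)
  -- the clusters
  let Qf : Finset V → Finset V := fun A => univ.filter fun v => ((nb G v \ A).card : ℝ) < ζ * d
  have hQf : ∀ A v, v ∈ Qf A ↔ ((nb G v \ A).card : ℝ) < ζ * d := by
    intro A v; simp [Qf]
  have hFb : ∀ p ∈ F, bdr G p.1 ≤ a ^ 3 * (d : ℝ) ^ 2 := by
    intro p hp
    have h1 := (hF1 p hp).1.bd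
    have h2 := hle' p.2 (by have := (hF1 p hp).2; omega)
    exact h1.trans (mul_le_mul_of_nonneg_right h2 (by positivity))
  -- members of `A` which are not in `Qf A`
  have hout : ∀ p ∈ F, ((p.1 \ Qf p.1).card : ℝ) ≤ a ^ 3 / ζ * d := by
    intro p hp
    have h1 : ∀ v ∈ p.1 \ Qf p.1, ζ * d ≤ ((nb G v \ p.1).card : ℝ) := by
      intro v hv
      have := (mem_sdiff.1 hv).2
      rw [hQf] at this
      linarith
    have h2 := card_nsmul_le_sum _ _ _ h1
    rw [nsmul_eq_mul] at h2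
    have h3 : ∑ v ∈ p.1 \ Qf p.1, ((nb G v \ p.1).card : ℝ) ≤ bdr G p.1 :=
      sum_le_sum_of_subset_of_nonneg sdiff_subset fun _ _ _ => Nat.cast_nonneg _
    have h4 := hFb p hp
    have hζ : 0 < ζ := by linarith
    have h5 : ((p.1 \ Qf p.1).card : ℝ) * (ζ * d) ≤ (a ^ 3 / ζ * d) * (ζ * d) := by
      have : (a ^ 3 / ζ * d) * (ζ * d) = a ^ 3 * (d : ℝ) ^ 2 := by field_simp
      rw [this]; linarith
    exact le_of_mul_le_mul_right h5 (by positivity)
  have hout' : ∀ p ∈ F, ((p.1 \ Qf p.1).card : ℝ) ≤ a ^ 2 / 3 * d := by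
    intro p hp
    have hζ : 0 < ζ := by linarith
    refine (hout p hp).trans (mul_le_mul_of_nonneg_right ?_ (by positivity))
    rw [div_le_iff₀ hζ]
    nlinarith [sq_nonneg a]
  -- members of `Qf A` which are not in `A`
  have hin : ∀ p ∈ F, ((Qf p.1 \ p.1).card : ℝ) ≤ 2 * a ^ 3 * d := by
    intro p hp
    have h1 : ∀ v ∈ Qf p.1 \ p.1, (d : ℝ) / 2 ≤ ((nb G v ∩ p.1).card : ℝ) := by
      intro v hv
      have := (mem_sdiff.1 hv).1
      rw [hQf] at this
      have h := card_split (nb G v) p.1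
      rw [hreg v] at h
      nlinarith
    have h2 := card_nsmul_le_sum _ _ _ h1
    rw [nsmul_eq_mul, cnt_comm] at h2
    have h3 : ∑ w ∈ p.1, ((nb G w ∩ (Qf p.1 \ p.1)).card : ℝ) ≤ bdr G p.1 := by
      refine sum_le_sum fun v _ => card_mono' ?_
      intro x; simp only [mem_sdiff, mem_inter]; tauto
    have h4 := hFb p hp
    have h5 : ((Qf p.1 \ p.1).card : ℝ) * (d / 2) ≤ (2 * a ^ 3 * d) * (d / 2) := by
      have : (2 * a ^ 3 * d) * ((d : ℝ) / 2) = a ^ 3 * (d : ℝ) ^ 2 := by ring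
      rw [this]; linarith
    exact le_of_mul_le_mul_right h5 (by positivity)
  -- neighbours outside `Qf A` against neighbours outside `A`
  have hcmp : ∀ p ∈ F, ∀ v, ((nb G v \ Qf p.1).card : ℝ) ≤
      ((nb G v \ p.1).card : ℝ) + a ^ 2 / 3 * d := by
    intro p hp v
    have : nb G v \ Qf p.1 ⊆ (nb G v \ p.1) ∪ (p.1 \ Qf p.1) := by
      intro x; simp only [mem_sdiff, mem_union]; tauto
    have h1 : ((nb G v \ Qf p.1).card : ℝ) ≤ ((nb G v \ p.1).card : ℝ) + ((p.1 \ Qf p.1).card : ℝ) := by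
      exact_mod_cast (card_le_card this).trans (card_union_le _ _)
    linarith [hout' p hp]
  have hcmp' : ∀ p ∈ F, ∀ v, ((nb G v \ p.1).card : ℝ) ≤
      ((nb G v \ Qf p.1).card : ℝ) + 2 * a ^ 3 * d := by
    intro p hp v
    have : nb G v \ p.1 ⊆ (nb G v \ Qf p.1) ∪ (Qf p.1 \ p.1) := by
      intro x; simp only [mem_sdiff, mem_union]; tauto
    have h1 : ((nb G v \ p.1).card : ℝ) ≤ ((nb G v \ Qf p.1).card : ℝ) + ((Qf p.1 \ p.1).card : ℝ) := by
      exact_mod_cast (card_le_card this).trans (card_union_le _ _)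
    linarith [hin p hp]
  have hζ : 0 < ζ := by linarith
  have had : 0 < a * d := by positivity
  have hzd : 3 * a * d ≤ ζ * d := mul_le_mul_of_nonneg_right haz (by positivity)
  have ha2d : a ^ 2 * d ≤ a * d / 24 := by nlinarith
  have ha3d : a ^ 3 * d ≤ a ^ 2 * d / 24 := by nlinarith
  have ha2p : 0 < a ^ 2 * d := by positivity
  have hinn : ∀ p ∈ F, ∀ v ∈ Qf p.1, ((nb G v \ Qf p.1).card : ℝ) ≤ 2 * ζ * d := by
    intro p hp v hv
    rw [hQf] at hv
    have := hcmp p hp v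
    nlinarith
  -- number of members of the atom which are not light
  have hnl : ∀ p ∈ F, ((p.1.filter fun v => a * d < ((nb G v \ p.1).card : ℝ)).card : ℝ) ≤
      a ^ 2 * d := by
    intro p hp
    have h1 : ∀ v ∈ p.1.filter (fun v => a * d < ((nb G v \ p.1).card : ℝ)),
        a * d ≤ ((nb G v \ p.1).card : ℝ) := fun v hv => (mem_filter.1 hv).2.le
    have h2 := card_nsmul_le_sum _ _ _ h1
    rw [nsmul_eq_mul] at h2
    have h3 : ∑ v ∈ p.1.filter (fun v => a * d < ((nb G v \ p.1).card : ℝ)),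
        ((nb G v \ p.1).card : ℝ) ≤ bdr G p.1 :=
      sum_le_sum_of_subset_of_nonneg (filter_subset _ _) fun _ _ _ => Nat.cast_nonneg _
    have h4 := hFb p hp
    have h5 : ((p.1.filter fun v => a * d < ((nb G v \ p.1).card : ℝ)).card : ℝ) * (a * d) ≤
        (a ^ 2 * d) * (a * d) := by
      have : (a ^ 2 * d) * (a * d) = a ^ 3 * (d : ℝ) ^ 2 := by ring
      rw [this]; linarith
    exact le_of_mul_le_mul_right h5 had
  have hlight : ∀ p ∈ F, ∀ Ds : Finset (Finset V), Qf p.1 ∈ Ds →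
      ((p.1 \ lgt G d a Ds).card : ℝ) ≤ a ^ 2 * d := by
    intro p hp Ds hDs
    refine (card_mono' ?_).trans (hnl p hp)
    intro v hv
    rw [mem_sdiff] at hv
    rw [mem_filter]
    refine ⟨hv.1, ?_⟩
    by_contra hcon
    push Not at hcon
    apply hv.2
    simp only [lgt, mem_filter, mem_univ, true_and]
    refine ⟨Qf p.1, hDs, ?_, ?_⟩
    · rw [hQf]; nlinarith
    · have := hcmp p hp v
      nlinarith
  -- near-closed sets
  have hnear : ∀ T U : Finset V, (T.card : ℝ) ≤ M * d →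
      (U.card : ℝ) ≤ (1 + 1 / (3 * M * 2 ^ (K + 1)) * a ^ 3) * T.card →
      ∑ v ∈ T, ((nb G v \ U).card : ℝ) ≤ 1 / (3 * M * 2 ^ (K + 1)) * a ^ 3 * d * T.card →
      bdr G (T ∪ U) ≤ g0 * (d : ℝ) ^ 2 ∧ ((T ∪ U).card : ℝ) ≤ 3 * M * d := by
    intro T U hT hU hTU
    set g : ℝ := 1 / (3 * M * 2 ^ (K + 1)) * a ^ 3 with hgdef
    have hgg : 3 * g * M = g0 := by
      rw [hgdef, hg0]; field_simp
    have hgp : 0 < g := by positivity
    have hg1 : g ≤ 1 := by
      have h1 : g ≤ g0 := by nlinarith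
      have h2 : g0 ≤ a ^ 3 := by
        rw [← hγ]; nlinarith
      nlinarith
    constructor
    · have h1 := bdr_union G T U
      have h2 : ∑ v ∈ U, ((nb G v \ T).card : ℝ) = d * U.card - ∑ v ∈ T, ((nb G v ∩ U).card : ℝ) := by
        rw [cnt_comm]
        have : ∀ v ∈ U, ((nb G v \ T).card : ℝ) = d - ((nb G v ∩ T).card : ℝ) := by
          intro v _
          have h := card_split (nb G v) T
          rw [hreg v] at h
          linarith
        rw [sum_congr rfl this, sum_sub_distrib, sum_const, nsmul_eq_mul]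
        ring
      have h3 : ∑ v ∈ T, ((nb G v ∩ U).card : ℝ) = d * T.card - ∑ v ∈ T, ((nb G v \ U).card : ℝ) := by
        have : ∀ v ∈ T, ((nb G v ∩ U).card : ℝ) = d - ((nb G v \ U).card : ℝ) := by
          intro v _
          have h := card_split (nb G v) U
          rw [hreg v] at h
          linarith
        rw [sum_congr rfl this, sum_sub_distrib, sum_const, nsmul_eq_mul]
        ring
      have h4 : (d : ℝ) * U.card ≤ d * ((1 + g) * T.card) :=
        mul_le_mul_of_nonneg_left hU (by positivity)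
      have h5 : bdr G (T ∪ U) ≤ 3 * g * d * T.card := by
        rw [h2, h3] at h1
        nlinarith
      have h6 : 3 * g * d * T.card ≤ 3 * g * d * (M * d) :=
        mul_le_mul_of_nonneg_left hT (by positivity)
      have h7 : 3 * g * d * (M * d) = g0 * (d : ℝ) ^ 2 := by rw [← hgg]; ring
      linarith
    · have h1 : ((T ∪ U).card : ℝ) ≤ T.card + U.card := by exact_mod_cast card_union_le T U
      have hT0 : (0 : ℝ) ≤ T.card := Nat.cast_nonneg _
      nlinarith
  refine ⟨F.image fun p => Qf p.1, ⟨?_, ?_, ?_, ?_, ?_, ?_, ?_, ?_, ?_⟩⟩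
  · -- dis
    intro Q hQ Q' hQ' hne
    obtain ⟨p, hp, rfl⟩ := mem_image.1 hQ
    obtain ⟨q, hq, rfl⟩ := mem_image.1 hQ'
    have hpq : p ≠ q := by rintro rfl; exact hne rfl
    rw [disjoint_left]
    intro v hv hv'
    rw [hQf] at hv hv'
    have hsmall : ((p.1 ∩ q.1).card : ℝ) ≤ 2 * a ^ 3 * d := by
      have hw : ∀ p ∈ F, ∀ q ∈ F, p ≠ q → q.2 ≤ p.2 → ((p.1 ∩ q.1).card : ℝ) ≤ 2 * a ^ 3 * d := by
        intro p hp q hq hpq hle2
        have hb : bdr G (p.1 ∩ q.1) ≤ 2 ^ (p.2 + 1) * g0 * (d : ℝ) ^ 2 := by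
          have h1 := bdr_inter G p.1 q.1
          have h2 := (hF1 p hp).1.bd
          have h3 := (hF1 q hq).1.bd
          have h4 : (2 : ℝ) ^ q.2 * g0 * (d : ℝ) ^ 2 ≤ 2 ^ p.2 * g0 * (d : ℝ) ^ 2 := by
            have : (2 : ℝ) ^ q.2 ≤ 2 ^ p.2 := pow_le_pow_right₀ (by norm_num) hle2
            gcongr
          have hpow1 : (2 : ℝ) ^ (p.2 + 1) = 2 * 2 ^ p.2 := by ring
          rw [hpow1]; nlinarith
        have ht := tiny hd hreg hb (hF2 p hp q hq hpq)
        have h5 := hle p.2 (by have := (hF1 p hp).2; omega)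
        refine ht.trans ?_
        nlinarith
      rcases le_total q.2 p.2 with h | h
      · exact hw p hp q hq hpq h
      · rw [inter_comm]
        exact hw q hq p hp hpq.symm h
    have h1 : (nb G v) ⊆ (nb G v \ p.1) ∪ (nb G v \ q.1) ∪ (p.1 ∩ q.1) := by
      intro x; simp only [mem_sdiff, mem_union, mem_inter]; tauto
    have h2 : ((nb G v).card : ℝ) ≤ ((nb G v \ p.1).card : ℝ) + ((nb G v \ q.1).card : ℝ) +
        ((p.1 ∩ q.1).card : ℝ) := by
      exact_mod_cast ((card_le_card h1).trans (card_union_le _ _)).trans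
        (Nat.add_le_add_right (card_union_le _ _) _)
    rw [hreg v] at h2
    nlinarith
  · -- lo
    intro Q hQ
    obtain ⟨p, hp, rfl⟩ := mem_image.1 hQ
    have hne : (Qf p.1).Nonempty := by
      by_contra hcon
      rw [not_nonempty_iff_eq_empty] at hcon
      have h1 := hout' p hp
      rw [hcon, sdiff_empty] at h1
      have h2 := (hF1 p hp).1.lo
      nlinarith
    obtain ⟨v, hv⟩ := hne
    have h1 := hinn p hp v hv
    have h2 := card_split (nb G v) (Qf p.1)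
    rw [hreg v] at h2
    have h3 : ((nb G v ∩ Qf p.1).card : ℝ) ≤ (Qf p.1).card := card_mono' inter_subset_right
    nlinarith
  · -- hi
    intro Q hQ
    obtain ⟨p, hp, rfl⟩ := mem_image.1 hQ
    have h1 : ((Qf p.1).card : ℝ) ≤ p.1.card + ((Qf p.1 \ p.1).card : ℝ) := by
      have : Qf p.1 ⊆ p.1 ∪ (Qf p.1 \ p.1) := by
        intro x; simp only [mem_sdiff, mem_union]; tauto
      exact_mod_cast (card_le_card this).trans (card_union_le _ _)
    have h2 := hin p hp
    have h3 := (hF1 p hp).1.hi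
    nlinarith
  · -- inn
    intro Q hQ v hv
    obtain ⟨p, hp, rfl⟩ := mem_image.1 hQ
    exact hinn p hp v hv
  · -- nin
    intro Q hQ v hv
    obtain ⟨p, hp, rfl⟩ := mem_image.1 hQ
    rw [hQf, not_lt] at hv
    have := hcmp' p hp v
    nlinarith
  · -- hv
    intro Q hQ
    obtain ⟨p, hp, rfl⟩ := mem_image.1 hQ
    have h1 : ((Qf p.1).filter fun v => 2 * a * d < ((nb G v \ Qf p.1).card : ℝ)) ⊆
        (p.1.filter fun v => a * d < ((nb G v \ p.1).card : ℝ)) ∪ (Qf p.1 \ p.1) := by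
      intro v hv
      rw [mem_filter] at hv
      rw [mem_union, mem_filter, mem_sdiff]
      by_cases hvp : v ∈ p.1
      · left
        refine ⟨hvp, ?_⟩
        have := hcmp p hp v
        nlinarith [hv.2]
      · right
        exact ⟨hv.1, hvp⟩
    have h2 : (((Qf p.1).filter fun v => 2 * a * d < ((nb G v \ Qf p.1).card : ℝ)).card : ℝ) ≤
        ((p.1.filter fun v => a * d < ((nb G v \ p.1).card : ℝ)).card : ℝ) +
          ((Qf p.1 \ p.1).card : ℝ) := by
      exact_mod_cast (card_le_card h1).trans (card_union_le _ _)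
    have h3 := hnl p hp
    have h4 := hin p hp
    nlinarith
  · -- bd
    intro Q hQ
    obtain ⟨p, hp, rfl⟩ := mem_image.1 hQ
    have h1 : bdr G (Qf p.1) ≤ ∑ v ∈ Qf p.1 ∩ p.1, ((nb G v \ Qf p.1).card : ℝ) +
        ∑ v ∈ Qf p.1 \ p.1, ((nb G v \ Qf p.1).card : ℝ) := by
      unfold bdr
      rw [← sum_inter_add_sum_sdiff (Qf p.1) p.1]
    have h2 : ∑ v ∈ Qf p.1 \ p.1, ((nb G v \ Qf p.1).card : ℝ) ≤ (2 * a ^ 3 * d) * (2 * ζ * d) := by
      have := sum_le_card_nsmul (Qf p.1 \ p.1) (fun v => ((nb G v \ Qf p.1).card : ℝ)) (2 * ζ * d)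
        (fun v hv => hinn p hp v (mem_sdiff.1 hv).1)
      rw [nsmul_eq_mul] at this
      exact this.trans (mul_le_mul_of_nonneg_right (hin p hp) (by positivity))
    have h3 : ∑ v ∈ Qf p.1 ∩ p.1, ((nb G v \ Qf p.1).card : ℝ) ≤
        ∑ v ∈ Qf p.1 ∩ p.1, ((nb G v \ p.1).card : ℝ) +
          ∑ v ∈ Qf p.1 ∩ p.1, ((nb G v ∩ (p.1 \ Qf p.1)).card : ℝ) := by
      rw [← sum_add_distrib]
      refine sum_le_sum fun v _ => ?_
      have : nb G v \ Qf p.1 ⊆ (nb G v \ p.1) ∪ (nb G v ∩ (p.1 \ Qf p.1)) := by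
        intro x; simp only [mem_sdiff, mem_union, mem_inter]; tauto
      exact_mod_cast (card_le_card this).trans (card_union_le _ _)
    have h4 : ∑ v ∈ Qf p.1 ∩ p.1, ((nb G v \ p.1).card : ℝ) ≤ a ^ 3 * (d : ℝ) ^ 2 :=
      (sum_le_sum_of_subset_of_nonneg inter_subset_right fun _ _ _ => Nat.cast_nonneg _).trans
        (hFb p hp)
    have h5 : ∑ v ∈ Qf p.1 ∩ p.1, ((nb G v ∩ (p.1 \ Qf p.1)).card : ℝ) ≤
        (a ^ 2 / 3 * d) * d := by
      rw [cnt_comm]
      have h6 := sum_le_card_nsmul (p.1 \ Qf p.1)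
        (fun v => ((nb G v ∩ (Qf p.1 ∩ p.1)).card : ℝ)) (d : ℝ) (fun v _ => by
          have := card_mono' (inter_subset_left : nb G v ∩ (Qf p.1 ∩ p.1) ⊆ nb G v)
          rwa [hreg v] at this)
      rw [nsmul_eq_mul] at h6
      exact h6.trans (mul_le_mul_of_nonneg_right (hout' p hp) (by positivity))
    have h7 : (2 * a ^ 3 * d) * (2 * ζ * d) ≤ a ^ 3 * (d : ℝ) ^ 2 := by
      have : (2 * a ^ 3 * d) * (2 * ζ * d) = 4 * ζ * (a ^ 3 * (d : ℝ) ^ 2) := by ring
      rw [this]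
      have hp3 : 0 < a ^ 3 * (d : ℝ) ^ 2 := by positivity
      nlinarith
    have h8 : a ^ 3 * (d : ℝ) ^ 2 ≤ a ^ 2 * (d : ℝ) ^ 2 / 24 := by
      have hd2 : (0 : ℝ) < (d : ℝ) ^ 2 := by positivity
      nlinarith
    nlinarith [sq_nonneg (d : ℝ)]
  · -- ex
    intro T U hT hU hTU
    obtain ⟨hb, hs⟩ := hnear T U hT hU hTU
    have ht0 : (0 : ℝ) ≤ 50 * M * a ^ 2 * d := by positivity
    set Ds : Finset (Finset V) := (F.image fun p => Qf p.1).filter
      fun Q => ((Q \ (T ∪ U)).card : ℝ) ≤ 4 * a ^ 3 * d with hDs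
    by_cases hsm : ((T ∪ U).card : ℝ) < d / 2
    · have h1 := tiny hd hreg hb hsm
      have h2 : (((T ∪ U) \ lgt G d a Ds).card : ℝ) ≤ (T ∪ U).card :=
        card_mono' sdiff_subset
      have h3 : g0 ≤ a ^ 3 := by
        rw [← hγ]; nlinarith
      nlinarith
    · push Not at hsm
      have hnn : 2 * (T ∪ U).card / d ≤ n := by
        rw [hn]
        apply Nat.le_floor
        have h1 : ((2 * (T ∪ U).card / d : ℕ) : ℝ) ≤ ((2 * (T ∪ U).card : ℕ) : ℝ) / d := Nat.cast_div_le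
        refine h1.trans ?_
        rw [div_le_iff₀ (by linarith)]
        push_cast
        nlinarith
      obtain ⟨S, hS1, hS2, hS3⟩ := split (m := 3 * M) (g0 := g0) hd hg0p.le _ (T ∪ U) 0 rfl hsm hs
        (by simpa using hb)
      have hone : ∀ p ∈ S, ((p.1 \ lgt G d a Ds).card : ℝ) ≤ 3 * a ^ 2 * d := by
        intro p hp
        obtain ⟨hpA, hpi, hpTU⟩ := hS2 p hp
        have hpK : p.2 ≤ K := by rw [hK]; omega
        obtain ⟨q, hq, hqp, hq2⟩ := hF3 p.1 p.2 hpA (by omega)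
        have hbq : bdr G q.1 ≤ 2 ^ p.2 * g0 * (d : ℝ) ^ 2 := by
          refine (hF1 q hq).1.bd.trans ?_
          have : (2 : ℝ) ^ q.2 ≤ 2 ^ p.2 := pow_le_pow_right₀ (by norm_num) hqp
          gcongr
        have h3 : ((p.1 \ q.1).card : ℝ) ≤ 2 * a ^ 3 * d := by
          have h5 := hle p.2 hpK
          rcases overlap hd hreg hpA hbq with h | h
          · exfalso
            have : (d : ℝ) / 2 ≤ 2 * (2 ^ (p.2 + 1) * g0) * d := hq2.trans h
            nlinarith
          · refine h.trans ?_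
            nlinarith
        have h4 : p.1 \ lgt G d a Ds ⊆ (p.1 \ q.1) ∪ (q.1 \ lgt G d a Ds) := by
          intro x; simp only [mem_sdiff, mem_union]; tauto
        have h5 : ((p.1 \ lgt G d a Ds).card : ℝ) ≤
            ((p.1 \ q.1).card : ℝ) + ((q.1 \ lgt G d a Ds).card : ℝ) := by
          exact_mod_cast (card_le_card h4).trans (card_union_le _ _)
        have h6 : Qf q.1 ∈ Ds := by
          rw [hDs, mem_filter]
          refine ⟨mem_image_of_mem _ hq, ?_⟩
          have hbTU : bdr G (T ∪ U) ≤ 2 ^ q.2 * g0 * (d : ℝ) ^ 2 := by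
            refine hb.trans ?_
            have : (1 : ℝ) ≤ 2 ^ q.2 := one_le_pow₀ (by norm_num)
            have hpos : 0 < g0 * (d : ℝ) ^ 2 := by positivity
            nlinarith
          have h9 := hle q.2 (hqp.trans hpK)
          rcases overlap hd hreg (hF1 q hq).1 hbTU with h | h
          · exfalso
            have h10 : ((p.1 ∩ q.1).card : ℝ) ≤ ((q.1 ∩ (T ∪ U)).card : ℝ) := by
              refine card_mono' fun x hx => ?_
              rw [mem_inter] at hx ⊢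
              exact ⟨hx.2, hpTU hx.1⟩
            nlinarith
          · have h10 : Qf q.1 \ (T ∪ U) ⊆ (q.1 \ (T ∪ U)) ∪ (Qf q.1 \ q.1) := by
              intro x; simp only [mem_sdiff, mem_union]; tauto
            have h11 : ((Qf q.1 \ (T ∪ U)).card : ℝ) ≤ ((q.1 \ (T ∪ U)).card : ℝ) +
                ((Qf q.1 \ q.1).card : ℝ) := by
              exact_mod_cast (card_le_card h10).trans (card_union_le _ _)
            have h12 := hin q hq
            nlinarith
        have h7 := hlight q hq Ds h6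
        nlinarith
      have h7 : ((T ∪ U) \ lgt G d a Ds) ⊆ S.biUnion fun p => p.1 \ lgt G d a Ds := by
        intro x hx
        rw [mem_sdiff] at hx
        obtain ⟨p, hp, hxp⟩ := mem_biUnion.1 (hS3 hx.1)
        exact mem_biUnion.2 ⟨p, hp, mem_sdiff.2 ⟨hxp, hx.2⟩⟩
      have h8 : (((T ∪ U) \ lgt G d a Ds).card : ℝ) ≤
          ∑ p ∈ S, ((p.1 \ lgt G d a Ds).card : ℝ) := by
        exact_mod_cast (card_le_card h7).trans card_biUnion_le
      have h9 := sum_le_card_nsmul S _ _ hone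
      rw [nsmul_eq_mul] at h9
      have h10 : (S.card : ℝ) ≤ 6 * M := by
        have : (S.card : ℝ) ≤ n := by exact_mod_cast hS1.trans hnn
        linarith
      have h11 : (S.card : ℝ) * (3 * a ^ 2 * d) ≤ 6 * M * (3 * a ^ 2 * d) :=
        mul_le_mul_of_nonneg_right h10 (by positivity)
      nlinarith
  · -- al
    intro T U hT hU hTU Q hQ
    obtain ⟨hb, hs⟩ := hnear T U hT hU hTU
    obtain ⟨p, hp, rfl⟩ := mem_image.1 hQ
    have hpi : p.2 ≤ K := by have := (hF1 p hp).2; omega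
    have hb' : bdr G (T ∪ U) ≤ 2 ^ p.2 * g0 * (d : ℝ) ^ 2 := by
      refine hb.trans ?_
      have : (1 : ℝ) ≤ 2 ^ p.2 := one_le_pow₀ (by norm_num)
      have hpos : 0 < g0 * (d : ℝ) ^ 2 := by positivity
      nlinarith
    have h5 := hle p.2 hpi
    have h6 := hin p hp
    rcases overlap hd hreg (hF1 p hp).1 hb' with h | h
    · left
      have h1 : Qf p.1 ∩ (T ∪ U) ⊆ (p.1 ∩ (T ∪ U)) ∪ (Qf p.1 \ p.1) := by
        intro x; simp only [mem_sdiff, mem_union, mem_inter]; tauto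
      have h2 : ((Qf p.1 ∩ (T ∪ U)).card : ℝ) ≤ ((p.1 ∩ (T ∪ U)).card : ℝ) +
          ((Qf p.1 \ p.1).card : ℝ) := by
        exact_mod_cast (card_le_card h1).trans (card_union_le _ _)
      nlinarith
    · right
      have h1 : Qf p.1 \ (T ∪ U) ⊆ (p.1 \ (T ∪ U)) ∪ (Qf p.1 \ p.1) := by
        intro x; simp only [mem_sdiff, mem_union]; tauto
      have h2 : ((Qf p.1 \ (T ∪ U)).card : ℝ) ≤ ((p.1 \ (T ∪ U)).card : ℝ) +
          ((Qf p.1 \ p.1).card : ℝ) := by
        exact_mod_cast (card_le_card h1).trans (card_union_le _ _)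
      nlinarith

end Pool.Agent.Work.MP_db9399_xc.helper38
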